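import Pool.Agent.K3h74.SZ.Stm2
import Pool.Agent.K3h55.SZ.TORA

/-!
Project SZ2 (helper74), brick TORA2: admissible families with parameter `s` exist (written by
helper99 after TORA of helper55).
-/

set_option autoImplicit false

namespace Pool.Agent.K3h99.SZ

open Polynomial Pool.Agent.K3h74.SZ
open Pool.Agent.K3h55.SZ (simple_mul separable_of_simple)

/-- `X - s` -/
noncomputable def l0 : ℤ[X][X] := X - C X

/-- `X² - 2 X + s²` -/
noncomputable def q1 : ℤ[X][X] := X ^ 2 - 2 * X + C (X ^ 2)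

theorem l0_map (s : ℂ) : l0.map (sp s) = X - C s := by
  simp [l0, sp_X]

theorem q1_map (s : ℂ) : q1.map (sp s) = X ^ 2 - 2 * X + C (s ^ 2) := by
  simp [q1, sp_X]

theorem l0_eval (s x : ℂ) : (l0.map (sp s)).eval x = x - s := by
  rw [l0_map]; simp

theorem q1_eval (s x : ℂ) : (q1.map (sp s)).eval x = x ^ 2 - 2 * x + s ^ 2 := by
  rw [q1_map]; simp

theorem l0_deriv (s x : ℂ) : (l0.map (sp s)).derivative.eval x = 1 := by
  rw [l0_map]; simp

theorem q1_deriv (s x : ℂ) : (q1.map (sp s)).derivative.eval x = 2 * x - 2 := by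
  rw [q1_map, derivative_add, derivative_C, add_zero]; simp; norm_num

theorem sq_sub_one {s : ℂ} (h1 : s ≠ 1) (h2 : s ≠ -1) : s ^ 2 - 1 ≠ 0 := by
  intro h
  have h3 : (s - 1) * (s + 1) = 0 := by linear_combination h
  rcases mul_eq_zero.1 h3 with h4 | h4
  · exact h1 (by linear_combination h4)
  · exact h2 (by linear_combination h4)

theorem good_l0 : Good2 1 l0 where
  monic := monic_X_sub_C _
  deg := natDegree_X_sub_C _
  zero := Or.inr (by simp [l0])
  simple s h0 h1 h2 x hx := by
    rw [l0_deriv]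
    exact one_ne_zero
  ne0 s h0 h1 h2 := by
    rw [l0_eval]
    intro h
    apply h0
    linear_combination -h
  ne1 s h0 h1 h2 := by
    rw [l0_eval]
    intro h
    apply h1
    linear_combination -h
  net s h0 h1 h2 := by
    rw [l0_eval]
    intro h
    have h3 : s * (s - 1) = 0 := by linear_combination h
    rcases mul_eq_zero.1 h3 with h4 | h4
    · exact h0 h4
    · exact h1 (by linear_combination h4)

theorem good_q1 : Good2 2 q1 where
  monic := by
    unfold q1
    monicity!
  deg := by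
    unfold q1
    compute_degree!
  zero := Or.inl (by
    unfold q1
    rw [coeff_add, coeff_C_zero]
    simp)
  simple s h0 h1 h2 x hx := by
    rw [q1_eval] at hx
    rw [q1_deriv]
    intro h
    apply sq_sub_one h1 h2
    have : x = 1 := by linear_combination h / 2
    rw [this] at hx
    linear_combination hx
  ne0 s h0 h1 h2 := by
    rw [q1_eval]
    intro h
    have h3 : s ^ 2 = 0 := by linear_combination h
    exact h0 (pow_eq_zero_iff two_ne_zero |>.1 h3)
  ne1 s h0 h1 h2 := by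
    rw [q1_eval]
    intro h
    apply sq_sub_one h1 h2
    linear_combination h
  net s h0 h1 h2 := by
    rw [q1_eval]
    intro h
    have h3 : s ^ 2 * (s ^ 2 - 1) = 0 := by linear_combination h
    rcases mul_eq_zero.1 h3 with h4 | h4
    · exact h0 (pow_eq_zero_iff two_ne_zero |>.1 h4)
    · exact sq_sub_one h1 h2 h4

theorem good_one : Good2 0 1 where
  monic := monic_one
  deg := by simp
  zero := Or.inl (by simp)
  simple s h0 h1 h2 x hx := by
    rw [Polynomial.map_one, eval_one] at hx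
    exact absurd hx one_ne_zero
  ne0 s h0 h1 h2 := by rw [Polynomial.map_one, eval_one]; exact one_ne_zero
  ne1 s h0 h1 h2 := by rw [Polynomial.map_one, eval_one]; exact one_ne_zero
  net s h0 h1 h2 := by rw [Polynomial.map_one, eval_one]; exact one_ne_zero

theorem good_mul {a b : ℕ} {q R : ℤ[X][X]} (hq : Good2 b q) (hR : Good2 a R)
    (hne : ∀ s : ℂ, s ≠ 0 → s ≠ 1 → s ≠ -1 → ∀ x : ℂ, (q.map (sp s)).eval x = 0 →
      (R.map (sp s)).eval x ≠ 0) : Good2 (a + b) (q * R) where
  monic := hq.monic.mul hR.monic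
  deg := by
    rw [hq.monic.natDegree_mul hR.monic, hq.deg, hR.deg]
    ring
  zero := by
    rw [mul_coeff_zero]
    rcases hq.zero with h1 | h1 <;> rcases hR.zero with h2 | h2 <;> rw [h1, h2]
    · left; ring
    · right; ring
    · right; ring
    · left; ring
  simple s h0 h1 h2 := by
    rw [Polynomial.map_mul]
    exact simple_mul (hq.simple s h0 h1 h2) (hR.simple s h0 h1 h2) (hne s h0 h1 h2)
  ne0 s h0 h1 h2 := by
    rw [Polynomial.map_mul, eval_mul]
    exact mul_ne_zero (hq.ne0 s h0 h1 h2) (hR.ne0 s h0 h1 h2)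
  ne1 s h0 h1 h2 := by
    rw [Polynomial.map_mul, eval_mul]
    exact mul_ne_zero (hq.ne1 s h0 h1 h2) (hR.ne1 s h0 h1 h2)
  net s h0 h1 h2 := by
    rw [Polynomial.map_mul, eval_mul]
    exact mul_ne_zero (hq.net s h0 h1 h2) (hR.net s h0 h1 h2)

theorem exists_good (h : S_TORH2) : ∀ n : ℕ, ∃ R, Good2 n R := by
  intro n
  induction n using Nat.strong_induction_on with
  | _ n ih =>
    rcases Nat.eq_zero_or_pos n with rfl | hn
    · exact ⟨1, good_one⟩
    obtain ⟨R, hR⟩ := ih (n / 4) (by omega)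
    obtain ⟨hH, hroots⟩ := h _ R hR
    set H := homP2 (n / 4) R with hHdef
    have e0 : ∀ s : ℂ, s ≠ 0 → s ≠ 1 → s ≠ -1 → ∀ x : ℂ, (l0.map (sp s)).eval x = 0 →
        (H.map (sp s)).eval x ≠ 0 := by
      intro s h0 h1 h2 x hx
      rw [l0_eval] at hx
      exact hroots s h0 h1 h2 x (Or.inl (by linear_combination hx))
    have e1 : ∀ s : ℂ, s ≠ 0 → s ≠ 1 → s ≠ -1 → ∀ x : ℂ, (q1.map (sp s)).eval x = 0 →
        (H.map (sp s)).eval x ≠ 0 := by
      intro s h0 h1 h2 x hx
      rw [q1_eval] at hx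
      exact hroots s h0 h1 h2 x (Or.inr hx)
    have e10 : ∀ s : ℂ, s ≠ 0 → s ≠ 1 → s ≠ -1 → ∀ x : ℂ, (q1.map (sp s)).eval x = 0 →
        (l0.map (sp s)).eval x ≠ 0 := by
      intro s h0 h1 h2 x hx hx'
      rw [q1_eval] at hx
      rw [l0_eval] at hx'
      have h3 : x = s := by linear_combination hx'
      rw [h3] at hx
      have h4 : s * (s - 1) = 0 := by linear_combination hx / 2
      rcases mul_eq_zero.1 h4 with h5 | h5
      · exact h0 h5
      · exact h1 (by linear_combination h5)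
    have g1 := good_mul good_l0 hH e0
    have g2 := good_mul good_q1 hH e1
    have g3 := good_mul good_q1 g1 (fun s h0 h1 h2 x hx => by
      rw [Polynomial.map_mul, eval_mul]
      exact mul_ne_zero (e10 s h0 h1 h2 x hx) (e1 s h0 h1 h2 x hx))
    have hb : n % 4 < 4 := Nat.mod_lt _ (by norm_num)
    have hn4 := Nat.div_add_mod n 4
    have hcases : n % 4 = 0 ∨ n % 4 = 1 ∨ n % 4 = 2 ∨ n % 4 = 3 := by omega
    rcases hcases with hb' | hb' | hb' | hb'
    · rw [show 4 * (n / 4) = n by omega] at hH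
      exact ⟨_, hH⟩
    · rw [show 4 * (n / 4) + 1 = n by omega] at g1
      exact ⟨_, g1⟩
    · rw [show 4 * (n / 4) + 2 = n by omega] at g2
      exact ⟨_, g2⟩
    · rw [show 4 * (n / 4) + 1 + 2 = n by omega] at g3
      exact ⟨_, g3⟩

/-- **TORA2** -/
theorem t_TORA2 : S_TORH2 → S_TOR2 := by
  intro h k hk
  obtain ⟨m, rfl⟩ : ∃ m, k = m + 1 := ⟨k - 1, by omega⟩
  obtain ⟨R, hR⟩ := exists_good h m
  refine ⟨(X - C (X ^ 2)) * R, ?_⟩
  have hl : ∀ s : ℂ, ((X - C (X ^ 2) : ℤ[X][X]) * R).map (sp s) =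
      (X - C (s ^ 2)) * R.map (sp s) := by
    intro s
    rw [Polynomial.map_mul, Polynomial.map_sub, map_X, map_C, map_pow, sp_X]
  refine ⟨(monic_X_sub_C _).mul hR.monic, ?_, ?_, fun s h0 h1 h2 => ?_, fun s h0 h1 h2 => ?_⟩
  · rw [(monic_X_sub_C _).natDegree_mul hR.monic, natDegree_X_sub_C, hR.deg]
    ring
  · rw [mul_coeff_zero, coeff_sub, coeff_X_zero, coeff_C_zero, zero_sub]
    rcases hR.zero with h2 | h2 <;> rw [h2]
    · right; ring
    · left; ring
  · rw [hl]
    apply separable_of_simple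
    refine simple_mul (fun x _ => ?_) (hR.simple s h0 h1 h2) (fun x hx => ?_)
    · rw [derivative_X_sub_C, eval_one]
      exact one_ne_zero
    · rw [eval_sub, eval_X, eval_C] at hx
      rw [show x = s ^ 2 by linear_combination hx]
      exact hR.net s h0 h1 h2
  · rw [hl, eval_mul, eval_sub, eval_X, eval_C]
    exact mul_ne_zero (fun h3 => sq_sub_one h1 h2 (by linear_combination -h3))
      (hR.ne1 s h0 h1 h2)

end Pool.Agent.K3h99.SZ
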